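import Pool.Agent.W223.AC.Stms

/-!
# AC-GROW: growth of integral elements
-/

set_option autoImplicit false

namespace Pool.Agent.W131.AC

open Polynomial IsDedekindDomain NumberField
open Pool.Agent.W223.AC
open Pool.Agent.W125.CV (fv fv_int)

section

variable {L : Type} [Field L] [NumberField L]

lemma fv_add (v : HeightOneSpectrum (𝓞 L)) (a b : L) :
    fv v (a + b) ≤ max (fv v a) (fv v b) := by
  have h2 := HeightOneSpectrum.adicAbv_add_le_max L v a b
  rw [← FinitePlace.norm_embedding, ← FinitePlace.norm_embedding,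
    ← FinitePlace.norm_embedding] at h2
  exact h2

lemma fv_sum (v : HeightOneSpectrum (𝓞 L)) {ι : Type} (s : Finset ι) (g : ι → L) (B : ℝ)
    (hB : 0 ≤ B) (h : ∀ i ∈ s, fv v (g i) ≤ B) : fv v (∑ i ∈ s, g i) ≤ B := by
  classical
  induction s using Finset.induction_on with
  | empty =>
    rw [Finset.sum_empty, map_zero]
    exact hB
  | insert a s ha ih =>
    rw [Finset.sum_insert ha]
    exact (fv_add v _ _).trans (max_le (h a (Finset.mem_insert_self _ _))
      (ih fun i hi => h i (Finset.mem_insert_of_mem hi)))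

omit [NumberField L] in
lemma inf_int (w : InfinitePlace L) (n : ℤ) : w (n : L) = |(n : ℝ)| := by
  rw [← InfinitePlace.norm_embedding_eq w, map_intCast, Complex.norm_intCast]

end

theorem t : Pool.Agent.W223.AC.StmtGROW := by
  classical
  intro A _ _ y hy
  obtain ⟨f, hf, hfy⟩ := hy
  set n : ℕ := f.natDegree with hn
  set c : ℕ := ∑ i ∈ Finset.range n, (f.coeff i).natDegree with hc
  set S : ℝ := ∑ i ∈ Finset.range n, ∑ j ∈ Finset.range (c + 1), |((f.coeff i).coeff j : ℝ)|
    with hS
  have hS0 : 0 ≤ S := Finset.sum_nonneg fun i _ => Finset.sum_nonneg fun j _ => abs_nonneg _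
  refine ⟨c, 1 + S, by linarith, ?_⟩
  intro L _ _ φ
  set x : L := φ (tt A) with hx
  set Y : L := φ y with hY
  have hhom : φ.comp (psi A) = Polynomial.eval₂RingHom (Int.castRingHom L) x := by
    apply Polynomial.ringHom_ext
    · intro a
      simp
    · rw [RingHom.comp_apply, Polynomial.coe_eval₂RingHom, Polynomial.eval₂_X, hx]
      simp [psi, tt]
  have hdeg : ∀ i ∈ Finset.range n, (f.coeff i).natDegree < c + 1 := by
    intro i hi
    have := Finset.single_le_sum (f := fun i => (f.coeff i).natDegree)
      (fun _ _ => Nat.zero_le _) hi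
    rw [hc]
    exact Nat.lt_succ_of_le this
  have hpsi : ∀ i ∈ Finset.range n, φ (psi A (f.coeff i)) =
      ∑ j ∈ Finset.range (c + 1), ((f.coeff i).coeff j : L) * x ^ j := by
    intro i hi
    have h1 : φ (psi A (f.coeff i)) = (φ.comp (psi A)) (f.coeff i) := rfl
    rw [h1, hhom, Polynomial.coe_eval₂RingHom,
      Polynomial.eval₂_eq_sum_range' (Int.castRingHom L) (hdeg i hi)]
    rfl
  have heq : Y ^ n = -∑ i ∈ Finset.range n, φ (psi A (f.coeff i)) * Y ^ i := by
    have h1 := congrArg φ hfy
    rw [map_zero, Polynomial.hom_eval₂, Polynomial.eval₂_eq_sum_range, Finset.sum_range_succ,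
      ← hn] at h1
    have h2 : f.coeff n = 1 := hf
    rw [h2, map_one, one_mul] at h1
    exact eq_neg_of_add_eq_zero_right h1
  have hnpos : 0 < n := by
    rcases Nat.eq_zero_or_pos n with h | h
    · rw [h] at heq
      simp at heq
    · exact h
  obtain ⟨m, hm⟩ : ∃ m, n = m + 1 := ⟨n - 1, by omega⟩
  refine ⟨?_, ?_⟩
  · intro v
    set a : ℝ := max (fv v x) 1 with ha
    have ha1 : 1 ≤ a := le_max_right _ _
    have hac : 1 ≤ a ^ c := one_le_pow₀ ha1
    by_cases hY1 : fv v Y ≤ 1
    · exact hY1.trans hac
    · have hY1 : 1 < fv v Y := not_le.1 hY1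
      have hY0 : 0 < fv v Y := by linarith
      have hβ : ∀ i ∈ Finset.range n, fv v (φ (psi A (f.coeff i))) ≤ a ^ c := by
        intro i hi
        rw [hpsi i hi]
        refine fv_sum v _ _ _ (by positivity) fun j hj => ?_
        rw [Finset.mem_range] at hj
        rw [map_mul, map_pow]
        calc fv v ((f.coeff i).coeff j : L) * fv v x ^ j ≤ 1 * a ^ j :=
              mul_le_mul (fv_int v _) (pow_le_pow_left₀ ((fv v).nonneg _) (le_max_left _ _) _)
                (pow_nonneg ((fv v).nonneg _) _) zero_le_one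
          _ ≤ a ^ c := by
              rw [one_mul]
              exact pow_le_pow_right₀ ha1 (by omega)
      have h1 : fv v Y ^ n ≤ a ^ c * fv v Y ^ m := by
        have h2 : fv v (Y ^ n) ≤ a ^ c * fv v Y ^ m := by
          rw [heq, AbsoluteValue.map_neg]
          refine fv_sum v _ _ _ (by positivity) fun i hi => ?_
          rw [map_mul, map_pow]
          have hi' := Finset.mem_range.1 hi
          exact mul_le_mul (hβ i hi) (pow_le_pow_right₀ hY1.le (by omega))
            (by positivity) (by positivity)
        rwa [map_pow] at h2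
      rw [hm, pow_succ, mul_comm] at h1
      exact le_of_mul_le_mul_right h1 (by positivity)
  · intro w
    set a : ℝ := max (w x) 1 with ha
    have ha1 : 1 ≤ a := le_max_right _ _
    have hac : 1 ≤ a ^ c := one_le_pow₀ ha1
    have hw0 : ∀ z : L, 0 ≤ w z := fun z => apply_nonneg w z
    by_cases hY1 : w Y ≤ 1
    · calc w Y ≤ 1 * 1 := by rw [mul_one]; exact hY1
        _ ≤ (1 + S) * a ^ c := mul_le_mul (by linarith) hac zero_le_one (by linarith)
    · have hY1 : 1 < w Y := not_le.1 hY1
      have hY0 : 0 < w Y := by linarith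
      have hβ : ∀ i ∈ Finset.range n, w (φ (psi A (f.coeff i))) ≤
          (∑ j ∈ Finset.range (c + 1), |((f.coeff i).coeff j : ℝ)|) * a ^ c := by
        intro i hi
        rw [hpsi i hi]
        have h3 : w (∑ j ∈ Finset.range (c + 1), ((f.coeff i).coeff j : L) * x ^ j) ≤
            ∑ j ∈ Finset.range (c + 1), w (((f.coeff i).coeff j : L) * x ^ j) :=
          w.1.sum_le _ _
        refine h3.trans ?_
        rw [Finset.sum_mul]
        refine Finset.sum_le_sum fun j hj => ?_
        rw [Finset.mem_range] at hj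
        rw [map_mul, map_pow, inf_int]
        refine mul_le_mul_of_nonneg_left ?_ (abs_nonneg _)
        calc w x ^ j ≤ a ^ j := pow_le_pow_left₀ (hw0 _) (le_max_left _ _) _
          _ ≤ a ^ c := pow_le_pow_right₀ ha1 (by omega)
      have h1 : w Y ^ n ≤ (S * a ^ c) * w Y ^ m := by
        have h2 : w (Y ^ n) ≤ (S * a ^ c) * w Y ^ m := by
          rw [heq]
          have h4 : w (-∑ i ∈ Finset.range n, φ (psi A (f.coeff i)) * Y ^ i) =
              w (∑ i ∈ Finset.range n, φ (psi A (f.coeff i)) * Y ^ i) := w.1.map_neg _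
          rw [h4]
          have h5 : w (∑ i ∈ Finset.range n, φ (psi A (f.coeff i)) * Y ^ i) ≤
              ∑ i ∈ Finset.range n, w (φ (psi A (f.coeff i)) * Y ^ i) := w.1.sum_le _ _
          refine h5.trans ?_
          rw [hS, Finset.sum_mul, Finset.sum_mul]
          refine Finset.sum_le_sum fun i hi => ?_
          rw [map_mul, map_pow]
          have hi' := Finset.mem_range.1 hi
          exact mul_le_mul (hβ i hi) (pow_le_pow_right₀ hY1.le (by omega))
            (pow_nonneg (hw0 _) _)
            (mul_nonneg (Finset.sum_nonneg fun j _ => abs_nonneg _) (by positivity))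
        rwa [map_pow] at h2
      rw [hm, pow_succ, mul_comm] at h1
      have h6 : w Y ≤ S * a ^ c := le_of_mul_le_mul_right h1 (pow_pos hY0 _)
      refine h6.trans (mul_le_mul_of_nonneg_right (by linarith) (by positivity))

end Pool.Agent.W131.AC
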